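import Pool.Agent.H52.GC.Cnt

/-!
# Closure ordinals below `ω₁` and finite subsets inside a countable transitive model
-/

set_option autoImplicit false
set_option linter.unusedVariables false
set_option linter.unusedSectionVars false
set_option linter.unusedSimpArgs false

universe u v w

namespace Pool.Agent.H52.GC

open Pool.Agent.H17.Omega CTM

variable {M : Set ZFSet.{u}}

/-- Closure ordinals. -/
theorem IsOm1.closure (hM : CTM M) {δ : Ordinal.{u}} (hδ : IsOm1 M δ) {Φ : M → M → Prop}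
    (hΦ : hM.Dfn (fun v : Fin 2 → M => Φ (v 0) (v 1)))
    (htot : ∀ β < δ, ∃ γ, β < γ ∧ γ < δ ∧ ∀ x y : M, x.1 = β.toZFSet → y.1 = γ.toZFSet → Φ x y)
    {β₀ : Ordinal.{u}} (hβ₀ : β₀ < δ) : ∃ α < δ, β₀ < α ∧ ∀ ξ < α, ∃ β γ, ξ ≤ β ∧ β < γ ∧ γ < α ∧
      ∀ x y : M, x.1 = β.toZFSet → y.1 = γ.toZFSet → Φ x y := by
  have hord : ∀ β < δ, β.toZFSet ∈ M := fun β hβ => hM.toZFSet_mem_of_le hβ.le hδ.mem
  let S : M → M → Prop := fun x y => x.1 ∈ y.1 ∧ Φ x y ∧ ∀ y' : M, y'.1 ∈ y.1 → ¬ (x.1 ∈ y'.1 ∧ Φ x y')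
  have hS : hM.Dfn (fun v : Fin 2 → M => S (v 0) (v 1)) := by
    (repeat' first
        | exact DT.var _ | exact DT.last | exact DT.const _ | assumption
        | refine Dfn.pairMem ?_ ?_ ?_ | refine Dfn.isPair ?_ ?_ ?_ | refine Dfn.mem ?_ ?_
        | refine Dfn.eqv ?_ ?_ | refine Dfn.eq ?_ ?_ | refine Dfn.subset ?_ ?_
        | refine Dfn.isEmpty ?_ | refine Dfn.isTrans ?_ | refine Dfn.isOrd ?_
        | refine Dfn.isNat ?_ | refine Dfn.and ?_ ?_ | refine Dfn.or ?_ ?_ | refine Dfn.iff ?_ ?_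
        | refine Dfn.not ?_ | refine Dfn.imp ?_ ?_ | refine Dfn.all ?_ | refine Dfn.ex ?_
        | exact Dfn.false')
    all_goals exact Dfn.subst2 hΦ (DT.var _) (DT.var _)
  obtain ⟨g, g0, gD, gS, hg⟩ := hM.exists_omega_rec hS (D := δ.toZFSet) hδ.mem (by
    intro x hx
    obtain ⟨β, hβ, hβx⟩ := Ordinal.mem_toZFSet_iff.1 hx
    obtain ⟨γ, h1, h2, h3⟩ := htot β hβ
    have hne : {γ : Ordinal.{u} | β < γ ∧ γ < δ ∧ ∀ x y : M, x.1 = β.toZFSet → y.1 = γ.toZFSet → Φ x y}.Nonempty :=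
      ⟨γ, h1, h2, h3⟩
    have hmin := csInf_mem hne
    set γ' := sInf {γ : Ordinal.{u} | β < γ ∧ γ < δ ∧ ∀ x y : M, x.1 = β.toZFSet → y.1 = γ.toZFSet → Φ x y}
      with hγ'
    refine ⟨⟨_, hord γ' hmin.2.1⟩, Ordinal.toZFSet_mem_toZFSet_iff.2 hmin.2.1, ?_, hmin.2.2 _ _ hβx.symm rfl, ?_⟩
    · rw [← hβx]; exact Ordinal.toZFSet_mem_toZFSet_iff.2 hmin.1
    · rintro y' hy' ⟨h4, h5⟩
      obtain ⟨ε, hε, hεy⟩ := Ordinal.mem_toZFSet_iff.1 hy'
      refine notMem_of_lt_csInf hε (OrderBot.bddBelow _) ⟨?_, hε.trans hmin.2.1, ?_⟩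
      · rw [← hεy, ← hβx] at h4
        exact Ordinal.toZFSet_mem_toZFSet_iff.1 h4
      · intro x2 y2 hx2 hy2
        have e1 : x2 = x := Subtype.ext (hx2.trans hβx)
        have e2 : y2 = y' := Subtype.ext (hy2.trans hεy)
        rw [e1, e2]; exact h5) (by
    intro x y y' hx hy hy' ⟨h1, h2, h3⟩ ⟨h1', h2', h3'⟩
    obtain ⟨β, hβ, hβy⟩ := Ordinal.mem_toZFSet_iff.1 hy
    obtain ⟨γ, hγ, hγy⟩ := Ordinal.mem_toZFSet_iff.1 hy'
    rcases lt_trichotomy β γ with h | h | h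
    · exfalso
      exact h3' y (by rw [← hβy, ← hγy]; exact Ordinal.toZFSet_mem_toZFSet_iff.2 h) ⟨h1, h2⟩
    · exact Subtype.ext (by rw [← hβy, ← hγy, h])
    · exfalso
      exact h3 y' (by rw [← hβy, ← hγy]; exact Ordinal.toZFSet_mem_toZFSet_iff.2 h) ⟨h1', h2'⟩)
    ⟨β₀.toZFSet, hord β₀ hβ₀⟩ (Ordinal.toZFSet_mem_toZFSet_iff.2 hβ₀)
  have hex : ∀ n, ∃ β < δ, (g n).1 = β.toZFSet := by
    intro n
    obtain ⟨β, hβ, hβy⟩ := Ordinal.mem_toZFSet_iff.1 (gD n)
    exact ⟨β, hβ, hβy.symm⟩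
  choose o ho hog using hex
  have ho0 : o 0 = β₀ := by
    rw [← toZFSet_inj, ← hog, g0]
  have homono : ∀ n, o n < o (n + 1) := by
    intro n
    have h1 := (gS n).1
    rw [hog, hog, Ordinal.toZFSet_mem_toZFSet_iff] at h1
    exact h1
  obtain ⟨α, hα, hbd⟩ := hδ.bdd hM hM.omZ_mem (ctb_om hM) (F := fun n y => ZFSet.pair n.1 y.1 ∈ (⟨_, hg⟩ : M).1)
    (by (repeat' first
        | exact DT.var _ | exact DT.last | exact DT.const _ | assumption
        | refine Dfn.pairMem ?_ ?_ ?_ | refine Dfn.isPair ?_ ?_ ?_ | refine Dfn.mem ?_ ?_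
        | refine Dfn.eqv ?_ ?_ | refine Dfn.eq ?_ ?_ | refine Dfn.subset ?_ ?_
        | refine Dfn.isEmpty ?_ | refine Dfn.isTrans ?_ | refine Dfn.isOrd ?_
        | refine Dfn.isNat ?_ | refine Dfn.and ?_ ?_ | refine Dfn.or ?_ ?_ | refine Dfn.iff ?_ ?_
        | refine Dfn.not ?_ | refine Dfn.imp ?_ ?_ | refine Dfn.all ?_ | refine Dfn.ex ?_
        | exact Dfn.false')) (by
      intro x hx y y' h1 h2
      obtain ⟨n, hn⟩ := mem_omZ.1 hx
      have h1 : ZFSet.pair x.1 y.1 ∈ seqZ _ := h1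
      have h2 : ZFSet.pair x.1 y'.1 ∈ seqZ _ := h2
      rw [hn, pair_mem_seqZ] at h1 h2
      exact Subtype.ext (h1.trans h2.symm))
  have hle : ∀ n, o n ≤ α := by
    intro n
    refine hbd (nz hM n) (natZ_mem_omZ n) (g n) ?_ (o n) (ho n) (hog n)
    exact pair_mem_seqZ.2 rfl
  have hbdd : BddAbove (Set.range o) := ⟨α, by rintro _ ⟨n, rfl⟩; exact hle n⟩
  refine ⟨iSup o, (ciSup_le hle).trans_lt hα, ?_, ?_⟩
  · rw [← ho0]
    exact (homono 0).trans_le (le_ciSup hbdd 1)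
  · intro ξ hξ
    obtain ⟨n, hn⟩ := exists_lt_of_lt_ciSup hξ
    refine ⟨o n, o (n + 1), hn.le, homono n, (homono (n + 1)).trans_le (le_ciSup hbdd (n + 2)), ?_⟩
    intro x y hx hy
    have e1 : x = g n := Subtype.ext (by rw [hx, hog])
    have e2 : y = g (n + 1) := Subtype.ext (by rw [hy, hog])
    rw [e1, e2]; exact (gS n).2.1

/-- `a` is finite. -/
def FinZ (a : ZFSet.{u}) : Prop := ∃ s : Finset ZFSet.{u}, ∀ z, z ∈ a ↔ z ∈ s

/-- Finite subsets of elements of the model are elements of the model. -/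
theorem FinZ.mem (hM : CTM M) {a X : ZFSet.{u}} (h : FinZ a) (hX : ∀ z ∈ a, z ∈ M) : a ∈ M := by
  classical
  obtain ⟨s, hs⟩ := h
  induction s using Finset.induction_on generalizing a with
  | empty =>
    have : a = ∅ := by
      rw [ZFSet.eq_empty]
      intro z hz
      exact absurd ((hs z).1 hz) (Finset.notMem_empty z)
    rw [this]; exact hM.empty_mem
  | insert x s hx ih =>
    have h1 : a = insert x (ZFSet.sep (fun z => z ∈ s) a) := by
      ext z
      rw [ZFSet.mem_insert_iff, ZFSet.mem_sep, hs, Finset.mem_insert]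
      constructor
      · rintro (h | h)
        · exact Or.inl h
        · exact Or.inr ⟨Or.inr h, h⟩
      · rintro (h | ⟨_, h⟩)
        · exact Or.inl h
        · exact Or.inr h
    rw [h1]
    refine hM.insert_mem (hX x ((hs x).2 (Finset.mem_insert_self _ _))) (ih ?_ ?_)
    · intro z hz
      rw [ZFSet.mem_sep] at hz
      exact hX z hz.1
    · intro z
      rw [ZFSet.mem_sep, hs, Finset.mem_insert]
      exact ⟨fun h => h.2, fun h => ⟨Or.inr h, h⟩⟩

/-- The finite subsets of an element of the model form an element of the model. -/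
theorem exists_fin (hM : CTM M) {X : ZFSet.{u}} (hX : X ∈ M) : ∃ Fi ∈ M, ∀ a, a ∈ Fi ↔ a ⊆ X ∧ FinZ a := by
  classical
  obtain ⟨P, hP, hP'⟩ := hM.exists_pow hX
  obtain ⟨Q, hQ, hQ'⟩ := hM.exists_pow (hM.prod_mem hM.omZ_mem hX)
  obtain ⟨Fi, hFi, hFi'⟩ := hM.exists_sep (P := fun a => ∃ n e : M, n.1 ∈ (⟨_, hM.omZ_mem⟩ : M).1 ∧
    e.1 ∈ (⟨Q, hQ⟩ : M).1 ∧ (∀ k y y' : M, ZFSet.pair k.1 y.1 ∈ e.1 → ZFSet.pair k.1 y'.1 ∈ e.1 → y = y') ∧
    ∀ x : M, x.1 ∈ a.1 → ∃ k : M, k.1 ∈ n.1 ∧ ZFSet.pair k.1 x.1 ∈ e.1) (by (repeat' first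
        | exact DT.var _ | exact DT.last | exact DT.const _ | assumption
        | refine Dfn.pairMem ?_ ?_ ?_ | refine Dfn.isPair ?_ ?_ ?_ | refine Dfn.mem ?_ ?_
        | refine Dfn.eqv ?_ ?_ | refine Dfn.eq ?_ ?_ | refine Dfn.subset ?_ ?_
        | refine Dfn.isEmpty ?_ | refine Dfn.isTrans ?_ | refine Dfn.isOrd ?_
        | refine Dfn.isNat ?_ | refine Dfn.and ?_ ?_ | refine Dfn.or ?_ ?_ | refine Dfn.iff ?_ ?_
        | refine Dfn.not ?_ | refine Dfn.imp ?_ ?_ | refine Dfn.all ?_ | refine Dfn.ex ?_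
        | exact Dfn.false')) hP
  refine ⟨Fi, hFi, fun a => ?_⟩
  rw [hFi', hP']
  constructor
  · rintro ⟨⟨haM, haX⟩, _, n, e, hn, he, hfun, hsur⟩
    refine ⟨haX, ?_⟩
    obtain ⟨m, hm⟩ := mem_omZ.1 hn
    have hex : ∀ k : ℕ, ∃ y : ZFSet.{u}, ∀ y', ZFSet.pair (natZ k) y' ∈ e.1 → y' = y := by
      intro k
      by_cases h1 : ∃ y, ZFSet.pair (natZ k) y ∈ e.1
      · obtain ⟨y, hy⟩ := h1
        refine ⟨y, fun y' hy' => ?_⟩
        have h2 := hM.of_pair_mem (hM.mem_of_mem e.2 hy)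
        have h3 := hM.of_pair_mem (hM.mem_of_mem e.2 hy')
        exact congrArg Subtype.val (hfun (nz hM k) ⟨y', h3.2⟩ ⟨y, h2.2⟩ hy' hy)
      · exact ⟨∅, fun y' hy' => (h1 ⟨y', hy'⟩).elim⟩
    choose y hy using hex
    refine ⟨((Finset.range m).image y).filter (fun z => z ∈ a), fun z => ?_⟩
    rw [Finset.mem_filter, Finset.mem_image]
    constructor
    · intro hz
      refine ⟨?_, hz⟩
      obtain ⟨k, hk, hk'⟩ := hsur ⟨z, hM.mem_of_mem haM hz⟩ hz
      rw [hm] at hk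
      obtain ⟨i, hi, hki⟩ := mem_natZ.1 hk
      rw [hki] at hk'
      exact ⟨i, Finset.mem_range.2 hi, (hy i _ hk').symm⟩
    · exact fun h => h.2
  · rintro ⟨haX, hfin⟩
    have haM : a ∈ M := hfin.mem (X := X) hM (fun z hz => hM.mem_of_mem hX (haX hz))
    refine ⟨⟨haM, haX⟩, haM, ?_⟩
    obtain ⟨s, hs⟩ := hfin
    let l := s.toList
    let gg : ℕ → ZFSet.{u} := fun n => l.getD n ∅
    have hgM : ∀ n, gg n ∈ M := by
      intro n
      by_cases hn : n < l.length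
      · have : gg n = l[n] := List.getD_eq_getElem _ _ hn
        rw [this]
        have h1 : l[n] ∈ s := by rw [← Finset.mem_toList]; exact List.getElem_mem hn
        exact hM.mem_of_mem haM ((hs _).2 h1)
      · have : gg n = ∅ := List.getD_eq_default _ _ (not_lt.1 hn)
        rw [this]; exact hM.empty_mem
    obtain ⟨e, he, he'⟩ := hM.finite_seq_mem (g := gg) hgM l.length
    refine ⟨nz hM l.length, ⟨e, he⟩, natZ_mem_omZ _, ?_, ?_, ?_⟩
    · refine (hQ' e).2 ⟨he, fun z hz => ?_⟩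
      obtain ⟨i, hi, rfl⟩ := (he' z).1 hz
      rw [ZFSet.pair_mem_prod]
      refine ⟨natZ_mem_omZ i, haX ((hs _).2 ?_)⟩
      have : gg i = l[i] := List.getD_eq_getElem _ _ hi
      rw [this, ← Finset.mem_toList]; exact List.getElem_mem hi
    · intro k y y' h1 h2
      obtain ⟨i, hi, h3⟩ := (he' _).1 h1
      obtain ⟨j, hj, h4⟩ := (he' _).1 h2
      rw [ZFSet.pair_inj] at h3 h4
      have : i = j := by rw [← natZ_inj.{u}, ← h3.1, ← h4.1]
      subst this
      exact Subtype.ext (h3.2.trans h4.2.symm)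
    · intro x hx
      have h1 : x.1 ∈ l := by rw [Finset.mem_toList]; exact (hs _).1 hx
      obtain ⟨i, hi, hix⟩ := List.getElem_of_mem h1
      refine ⟨nz hM i, natZ_mem.2 hi, (he' _).2 ⟨i, hi, ?_⟩⟩
      have : gg i = l[i] := List.getD_eq_getElem _ _ hi
      rw [this, hix]; rfl

theorem Ctb.prod (hM : CTM M) {X Y : ZFSet.{u}} (hX : Ctb M X) (hY : Ctb M Y) : Ctb M (ZFSet.prod X Y) := by
  obtain ⟨f, hf, hf'⟩ := hX
  obtain ⟨g, hg, hg'⟩ := hY
  obtain ⟨p, hp, hpM⟩ := exists_pairing hM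
  refine ⟨fun m => ZFSet.pair (f (p m).1) (g (p m).2), ?_, ?_⟩
  · refine seqZ_mem_of_dfn hM (F := fun m y => ∃ q n k a b : M, ZFSet.pair m.1 q.1 ∈ (⟨_, hpM⟩ : M).1 ∧
      q.1 = ZFSet.pair n.1 k.1 ∧ ZFSet.pair n.1 a.1 ∈ (⟨_, hf⟩ : M).1 ∧ ZFSet.pair k.1 b.1 ∈ (⟨_, hg⟩ : M).1 ∧
      y.1 = ZFSet.pair a.1 b.1) (by (repeat' first
          | exact DT.var _ | exact DT.last | exact DT.const _ | assumption
          | refine Dfn.pairMem ?_ ?_ ?_ | refine Dfn.isPair ?_ ?_ ?_ | refine Dfn.mem ?_ ?_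
          | refine Dfn.eqv ?_ ?_ | refine Dfn.eq ?_ ?_ | refine Dfn.subset ?_ ?_
          | refine Dfn.isEmpty ?_ | refine Dfn.isTrans ?_ | refine Dfn.isOrd ?_
          | refine Dfn.isNat ?_ | refine Dfn.and ?_ ?_ | refine Dfn.or ?_ ?_
          | refine Dfn.iff ?_ ?_ | refine Dfn.not ?_ | refine Dfn.imp ?_ ?_ | refine Dfn.all ?_
          | refine Dfn.ex ?_ | exact Dfn.false')) ?_ (fun n => hM.pair_mem (hM.seqZ_val hf _) (hM.seqZ_val hg _))
    intro m y
    constructor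
    · rintro ⟨q, n, k, a, b, h1, h2, h3, h4, h5⟩
      have h1 : q.1 = ZFSet.pair (natZ (p m).1) (natZ (p m).2) := pair_mem_seqZ.1 h1
      rw [h1, ZFSet.pair_inj] at h2
      rw [← h2.1] at h3
      rw [← h2.2] at h4
      have h3 : a.1 = f (p m).1 := pair_mem_seqZ.1 h3
      have h4 : b.1 = g (p m).2 := pair_mem_seqZ.1 h4
      rw [h5, h3, h4]
    · intro h1
      exact ⟨⟨_, hM.pair_mem (hM.natZ_mem_N _) (hM.natZ_mem_N _)⟩, nz hM (p m).1, nz hM (p m).2,
        ⟨f (p m).1, hM.seqZ_val hf _⟩, ⟨g (p m).2, hM.seqZ_val hg _⟩, pair_mem_seqZ.2 rfl, rfl,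
        pair_mem_seqZ.2 rfl, pair_mem_seqZ.2 rfl, h1⟩
  · intro x hx
    rw [ZFSet.mem_prod] at hx
    obtain ⟨a, ha, b, hb, rfl⟩ := hx
    obtain ⟨i, rfl⟩ := hf' a ha
    obtain ⟨j, rfl⟩ := hg' b hb
    obtain ⟨m, hm⟩ := hp (i, j)
    refine ⟨m, ?_⟩
    show ZFSet.pair (f (p m).1) (g (p m).2) = _
    rw [hm]

/-- The finite subsets of `ω` are countable. -/
theorem ctb_fin_om (hM : CTM M) {Y : ZFSet.{u}} (hY : ∀ y ∈ Y, y ⊆ omZ ∧ FinZ y) : Ctb M Y := by
  classical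
  obtain ⟨Fi, hFi, hFi'⟩ := exists_fin hM hM.omZ_mem
  let S : M → M → Prop := fun a b => ∃ k : M, k.1 ∈ (⟨_, hM.omZ_mem⟩ : M).1 ∧ ¬ k.1 ∈ a.1 ∧
    (∀ j : M, j.1 ∈ k.1 → j.1 ∈ a.1) ∧ ∀ z : M, z.1 ∈ b.1 ↔ (z.1 ∈ a.1 ∧ ¬ z.1 ∈ k.1) ∨ z = k
  have hS : hM.Dfn (fun v : Fin 2 → M => S (v 0) (v 1)) := by (repeat' first
      | exact DT.var _ | exact DT.last | exact DT.const _ | assumption
      | refine Dfn.pairMem ?_ ?_ ?_ | refine Dfn.isPair ?_ ?_ ?_ | refine Dfn.mem ?_ ?_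
      | refine Dfn.eqv ?_ ?_ | refine Dfn.eq ?_ ?_ | refine Dfn.subset ?_ ?_
      | refine Dfn.isEmpty ?_ | refine Dfn.isTrans ?_ | refine Dfn.isOrd ?_ | refine Dfn.isNat ?_
      | refine Dfn.and ?_ ?_ | refine Dfn.or ?_ ?_ | refine Dfn.iff ?_ ?_ | refine Dfn.not ?_
      | refine Dfn.imp ?_ ?_ | refine Dfn.all ?_ | refine Dfn.ex ?_ | exact Dfn.false')
  obtain ⟨g, g0, gD, gS, hg⟩ := hM.exists_omega_rec hS (D := Fi) hFi (by
    intro a ha
    obtain ⟨ha1, s, hs⟩ := (hFi' _).1 ha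
    have hex : ∃ k : ℕ, natZ k ∉ a.1 := by
      by_contra hcon
      push Not at hcon
      have h1 : Function.Injective (fun k : ℕ => (⟨natZ.{u} k, (hs _).1 (hcon k)⟩ : s)) := by
        intro i j hij
        exact natZ_inj.1 (congrArg Subtype.val hij)
      exact not_injective_infinite_finite _ h1
    have hk := Nat.find_spec hex
    have hk2 : ∀ j < Nat.find hex, natZ j ∈ a.1 := fun j hj => by
      by_contra h1
      exact Nat.find_min hex hj h1
    set k := Nat.find hex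
    let s' : Finset ZFSet.{u} := insert (natZ k) (s.filter (fun z => z ∉ natZ.{u} k))
    obtain ⟨b, hb, hb'⟩ := hM.exists_sep (P := fun z : M => (z.1 ∈ a.1 ∧ ¬ z.1 ∈ (nz hM k).1) ∨ z = nz hM k)
      (by (repeat' first
          | exact DT.var _ | exact DT.last | exact DT.const _ | assumption
          | refine Dfn.pairMem ?_ ?_ ?_ | refine Dfn.isPair ?_ ?_ ?_ | refine Dfn.mem ?_ ?_
          | refine Dfn.eqv ?_ ?_ | refine Dfn.eq ?_ ?_ | refine Dfn.subset ?_ ?_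
          | refine Dfn.isEmpty ?_ | refine Dfn.isTrans ?_ | refine Dfn.isOrd ?_
          | refine Dfn.isNat ?_ | refine Dfn.and ?_ ?_ | refine Dfn.or ?_ ?_
          | refine Dfn.iff ?_ ?_ | refine Dfn.not ?_ | refine Dfn.imp ?_ ?_ | refine Dfn.all ?_
          | refine Dfn.ex ?_ | exact Dfn.false')) hM.omZ_mem
    have hb2 : ∀ z : M, z.1 ∈ b ↔ (z.1 ∈ a.1 ∧ ¬ z.1 ∈ (nz hM k).1) ∨ z = nz hM k := by
      intro z
      rw [hb']
      constructor
      · rintro ⟨_, _, h1⟩; exact h1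
      · intro h1
        refine ⟨?_, z.2, h1⟩
        rcases h1 with h1 | h1
        · exact ha1 h1.1
        · rw [h1]; exact natZ_mem_omZ k
    refine ⟨⟨b, hb⟩, (hFi' b).2 ⟨fun z hz => ((hb' z).1 hz).1, s', fun z => ?_⟩, nz hM k, natZ_mem_omZ k, hk, ?_,
      hb2⟩
    · constructor
      · intro hz
        rcases (hb2 ⟨z, hM.mem_of_mem hb hz⟩).1 hz with h1 | h1
        · exact Finset.mem_insert_of_mem (Finset.mem_filter.2 ⟨(hs z).1 h1.1, h1.2⟩)
        · have : z = natZ k := congrArg Subtype.val h1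
          rw [this]; exact Finset.mem_insert_self _ _
      · intro hz
        rcases Finset.mem_insert.1 hz with rfl | hz
        · exact (hb2 (nz hM k)).2 (Or.inr rfl)
        · obtain ⟨h1, h2⟩ := Finset.mem_filter.1 hz
          have h3 := (hs z).2 h1
          exact (hb2 ⟨z, hM.mem_of_mem a.2 h3⟩).2 (Or.inl ⟨h3, h2⟩)
    · intro j hj
      obtain ⟨i, hi, hji⟩ := mem_natZ.1 hj
      rw [hji]; exact hk2 i hi) (by
    intro a b b' ha hb hb' ⟨k, h1, h2, h3, h4⟩ ⟨k', h1', h2', h3', h4'⟩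
    have hkk : k = k' := by
      obtain ⟨i, hi⟩ := mem_omZ.1 h1
      obtain ⟨j, hj⟩ := mem_omZ.1 h1'
      apply Subtype.ext
      rcases lt_trichotomy i j with h | h | h
      · exfalso
        exact h2 (h3' k (by rw [hi, hj]; exact natZ_mem.2 h))
      · rw [hi, hj, h]
      · exfalso
        exact h2' (h3 k' (by rw [hi, hj]; exact natZ_mem.2 h))
    subst hkk
    exact Subtype.ext (hM.ext' b.2 b'.2 fun z => (h4 z).trans (h4' z).symm)) ⟨∅, hM.empty_mem⟩
    ((hFi' _).2 ⟨fun z hz => (ZFSet.notMem_empty _ hz).elim, ∅, fun z => by simp⟩)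
  let A : ℕ → Set ℕ := fun n => {i | natZ i ∈ (g n).1}
  have hA0 : A 0 = ∅ := by
    ext i
    simp only [A, Set.mem_ofPred_eq, g0]
    exact ⟨fun h => ZFSet.notMem_empty _ h, fun h => h.elim⟩
  have hAS : ∀ n, ∃ k, k ∉ A n ∧ (∀ j < k, j ∈ A n) ∧ ∀ z, z ∈ A (n + 1) ↔ (z ∈ A n ∧ k ≤ z) ∨ z = k := by
    intro n
    obtain ⟨k, h1, h2, h3, h4⟩ := gS n
    obtain ⟨i, hi⟩ := mem_omZ.1 h1
    refine ⟨i, ?_, ?_, ?_⟩
    · rw [hi] at h2; exact h2
    · intro j hj
      exact h3 (nz hM j) (by rw [hi]; exact natZ_mem.2 hj)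
    · intro z
      have h5 := h4 (nz hM z)
      have h6 : (nz hM z = k) ↔ z = i := by
        constructor
        · intro h; exact natZ_inj.1 ((congrArg Subtype.val h).trans hi)
        · rintro rfl; exact Subtype.ext hi.symm
      rw [h6, hi] at h5
      show natZ z ∈ (g (n + 1)).1 ↔ (natZ z ∈ (g n).1 ∧ i ≤ z) ∨ z = i
      have h7 : ¬ natZ.{u} z ∈ natZ i ↔ i ≤ z := by rw [natZ_mem, not_lt]
      rw [← h7]
      exact h5
  have claim : ∀ k n, (∀ i < k, i ∉ A n) → ∀ b : Set ℕ, (∀ i ∈ b, i < k) → ∃ m, A m = A n ∪ b := by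
    intro k
    induction k with
    | zero =>
      intro n _ b hb
      refine ⟨n, ?_⟩
      have : b = ∅ := Set.eq_empty_of_forall_notMem fun i hi => absurd (hb i hi) (Nat.not_lt_zero _)
      rw [this, Set.union_empty]
    | succ k ih =>
      intro n hn b hb
      by_cases hkb : k ∈ b
      · obtain ⟨m1, hm1⟩ := ih n (fun i hi => hn i (by omega)) {i | i < k} (fun i hi => hi)
        obtain ⟨k', h1, h2, h3⟩ := hAS m1
        have hkk : k' = k := by
          rw [hm1] at h1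
          rcases lt_trichotomy k k' with h | h | h
          · have := h2 k h
            rw [hm1] at this
            rcases this with h4 | h4
            · exact (hn k (by omega) h4).elim
            · exact absurd h4 (lt_irrefl k)
          · exact h.symm
          · exact (h1 (Or.inr h)).elim
        subst hkk
        have hA1 : ∀ z, z ∈ A (m1 + 1) ↔ z ∈ A n ∨ z = k' := by
          intro z
          rw [h3, hm1]
          constructor
          · rintro (⟨h4 | h4, h5⟩ | h4)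
            · exact Or.inl h4
            · have h4 : z < k' := h4
              omega
            · exact Or.inr h4
          · rintro (h4 | h4)
            · left
              refine ⟨Or.inl h4, ?_⟩
              by_contra h5
              exact hn z (by omega) h4
            · exact Or.inr h4
        obtain ⟨m, hm⟩ := ih (m1 + 1) (by
          intro i hi h4
          rcases (hA1 i).1 h4 with h5 | h5
          · exact hn i (by omega) h5
          · omega) {i | i ∈ b ∧ i < k'} (fun i hi => hi.2)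
        refine ⟨m, ?_⟩
        rw [hm]
        ext z
        constructor
        · rintro (h4 | h4)
          · rcases (hA1 z).1 h4 with h5 | h5
            · exact Or.inl h5
            · right; rw [h5]; exact hkb
          · exact Or.inr h4.1
        · rintro (h4 | h4)
          · exact Or.inl ((hA1 z).2 (Or.inl h4))
          · have h5 := hb z h4
            rcases Nat.lt_succ_iff_lt_or_eq.1 h5 with h6 | h6
            · exact Or.inr ⟨h4, h6⟩
            · exact Or.inl ((hA1 z).2 (Or.inr h6))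
      · refine ih n (fun i hi => hn i (by omega)) b (fun i hi => ?_)
        have := hb i hi
        rcases Nat.lt_succ_iff_lt_or_eq.1 this with h6 | h6
        · exact h6
        · exact (hkb (h6 ▸ hi)).elim
  refine ⟨fun n => (g n).1, hg, ?_⟩
  intro y hy
  obtain ⟨h1, s, hs⟩ := hY y hy
  have hbd : ∃ k, ∀ i, natZ i ∈ y → i < k := by
    have hfin : {i : ℕ | natZ.{u} i ∈ y}.Finite := by
      refine Set.Finite.of_finite_image (f := natZ.{u}) (s.finite_toSet.subset ?_) (fun i _ j _ h => natZ_inj.1 h)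
      rintro _ ⟨i, hi, rfl⟩
      exact (hs _).1 hi
    obtain ⟨k, hk⟩ := hfin.bddAbove
    exact ⟨k + 1, fun i hi => Nat.lt_succ_of_le (hk hi)⟩
  obtain ⟨k, hk⟩ := hbd
  obtain ⟨m, hm⟩ := claim k 0 (fun i _ h => by rw [hA0] at h; exact h) {i | natZ i ∈ y} hk
  refine ⟨m, ?_⟩
  rw [hA0, Set.empty_union] at hm
  apply ZFSet.ext
  intro z
  constructor
  · intro hz
    obtain ⟨i, rfl⟩ := mem_omZ.1 (((hFi' _).1 (gD m)).1 hz)
    have : i ∈ A m := hz
    rw [hm] at this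
    exact this
  · intro hz
    obtain ⟨i, rfl⟩ := mem_omZ.1 (h1 hz)
    have : i ∈ A m := by rw [hm]; exact hz
    exact this

/-- The finite subsets of a countable set are countable. -/
theorem Ctb.fin (hM : CTM M) {X Y : ZFSet.{u}} (hX : Ctb M X) (hY : ∀ y ∈ Y, y ⊆ X ∧ FinZ y) : Ctb M Y := by
  classical
  obtain ⟨f, hf, hf'⟩ := hX
  obtain ⟨Fi, hFi, hFi'⟩ := exists_fin hM hM.omZ_mem
  refine Ctb.image hM (X := Fi) (ctb_fin_om hM (fun y hy => (hFi' y).1 hy)) hFi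
    (F := fun a b => ∀ z : M, z.1 ∈ b.1 ↔ ∃ n : M, n.1 ∈ a.1 ∧ ZFSet.pair n.1 z.1 ∈ (⟨_, hf⟩ : M).1) (by (repeat' first
        | exact DT.var _ | exact DT.last | exact DT.const _ | assumption
        | refine Dfn.pairMem ?_ ?_ ?_ | refine Dfn.isPair ?_ ?_ ?_ | refine Dfn.mem ?_ ?_
        | refine Dfn.eqv ?_ ?_ | refine Dfn.eq ?_ ?_ | refine Dfn.subset ?_ ?_
        | refine Dfn.isEmpty ?_ | refine Dfn.isTrans ?_ | refine Dfn.isOrd ?_
        | refine Dfn.isNat ?_ | refine Dfn.and ?_ ?_ | refine Dfn.or ?_ ?_ | refine Dfn.iff ?_ ?_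
        | refine Dfn.not ?_ | refine Dfn.imp ?_ ?_ | refine Dfn.all ?_ | refine Dfn.ex ?_
        | exact Dfn.false')) ?_ ?_
  · intro x _ y y' h1 h2
    exact Subtype.ext (hM.ext' y.2 y'.2 fun z => (h1 z).trans (h2 z).symm)
  · intro y hy
    obtain ⟨h1, s, hs⟩ := hY y hy
    have hidx : ∀ z : ZFSet.{u}, ∃ n, z ∈ y → f n = z := by
      intro z
      by_cases hz : z ∈ y
      · obtain ⟨n, hn⟩ := hf' z (h1 hz)
        exact ⟨n, fun _ => hn⟩
      · exact ⟨0, fun h => (hz h).elim⟩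
    choose ix hix using hidx
    have hyM : y ∈ M := FinZ.mem (X := X) hM ⟨s, hs⟩ (fun z hz => by
      rw [← hix z hz]; exact hM.seqZ_val hf _)
    let t : Finset ZFSet.{u} := s.image (fun z => natZ (ix z))
    have hmk : ∃ a : ZFSet.{u}, ∀ z, z ∈ a ↔ z ∈ t := by
      refine ⟨ZFSet.sep (fun z => z ∈ t) omZ, fun z => ?_⟩
      rw [ZFSet.mem_sep]
      constructor
      · exact fun h => h.2
      · intro h
        refine ⟨?_, h⟩
        obtain ⟨w, _, rfl⟩ := Finset.mem_image.1 h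
        exact natZ_mem_omZ _
    obtain ⟨a, ha⟩ := hmk
    have haFi : a ∈ Fi := by
      refine (hFi' a).2 ⟨?_, t, ha⟩
      intro z hz
      obtain ⟨w, _, rfl⟩ := Finset.mem_image.1 ((ha z).1 hz)
      exact natZ_mem_omZ _
    refine ⟨⟨a, hM.mem_of_mem hFi haFi⟩, ⟨y, hyM⟩, haFi, rfl, fun z => ?_⟩
    constructor
    · intro hz
      refine ⟨nz hM (ix z.1), (ha _).2 (Finset.mem_image.2 ⟨z.1, (hs _).1 hz, rfl⟩), ?_⟩
      exact pair_mem_seqZ.2 (hix z.1 hz).symm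
    · rintro ⟨n, hn, h2⟩
      obtain ⟨w, hw, hw2⟩ := Finset.mem_image.1 ((ha _).1 hn)
      rw [← hw2] at h2
      have h3 : z.1 = f (ix w) := pair_mem_seqZ.1 h2
      have h4 := (hs w).2 hw
      rw [h3, hix w h4]; exact h4

end Pool.Agent.H52.GC
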