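import Pool.Agent.H17.Omega.CtmD
import Pool.Agent.H17.GP.Seq

/-!
# Countability inside a countable transitive model
-/

set_option autoImplicit false
set_option linter.unusedVariables false
set_option linter.unusedSectionVars false
set_option linter.unusedSimpArgs false

universe u v w

namespace Pool.Agent.H52.GC

open Pool.Agent.H17.Omega CTM

variable {M : Set ZFSet.{u}}

/-- The element `n` of the model. -/
noncomputable def nz (hM : CTM M) (n : ℕ) : M := ⟨natZ n, hM.natZ_mem_N n⟩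

/-- `X` is countable in `M`. -/
def Ctb (M : Set ZFSet.{u}) (X : ZFSet.{u}) : Prop :=
  ∃ f : ℕ → ZFSet.{u}, seqZ f ∈ M ∧ ∀ x ∈ X, ∃ n, f n = x

/-- A definable sequence is an element of the model. -/
theorem seqZ_mem_of_dfn (hM : CTM M) {F : M → M → Prop}
    (hF : hM.Dfn (fun v : Fin 2 → M => F (v 0) (v 1))) {s : ℕ → ZFSet.{u}}
    (hs : ∀ n (y : M), F (nz hM n) y ↔ y.1 = s n) (hsM : ∀ n, s n ∈ M) : seqZ s ∈ M := by
  obtain ⟨b, hb, hb'⟩ := hM.exists_repl hF hM.omZ_mem (by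
    intro x hx y y' h1 h2
    obtain ⟨n, hn⟩ := mem_omZ.1 hx
    have hx' : x = nz hM n := Subtype.ext hn
    subst hx'
    exact Subtype.ext (((hs n y).1 h1).trans ((hs n y').1 h2).symm))
  obtain ⟨r, hr, hr'⟩ := hM.exists_sep (P := fun z => ∃ x y : M, z.1 = ZFSet.pair x.1 y.1 ∧ F x y) (by
    (repeat' first
        | exact DT.var _ | exact DT.last | exact DT.const _ | assumption
        | refine Dfn.pairMem ?_ ?_ ?_ | refine Dfn.isPair ?_ ?_ ?_ | refine Dfn.mem ?_ ?_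
        | refine Dfn.eqv ?_ ?_ | refine Dfn.eq ?_ ?_ | refine Dfn.subset ?_ ?_
        | refine Dfn.isEmpty ?_ | refine Dfn.isTrans ?_ | refine Dfn.isOrd ?_
        | refine Dfn.isNat ?_ | refine Dfn.and ?_ ?_ | refine Dfn.or ?_ ?_ | refine Dfn.iff ?_ ?_
        | refine Dfn.not ?_ | refine Dfn.imp ?_ ?_ | refine Dfn.all ?_ | refine Dfn.ex ?_
        | exact Dfn.false')
    exact Dfn.subst2 hF (DT.var _) (DT.var _)) (hM.prod_mem hM.omZ_mem hb)
  have : seqZ s = r := by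
    ext z
    rw [mem_seqZ, hr']
    constructor
    · rintro ⟨n, rfl⟩
      have h1 : F (nz hM n) ⟨s n, hsM n⟩ := (hs n _).2 rfl
      refine ⟨?_, hM.pair_mem (hM.natZ_mem_N n) (hsM n), nz hM n, ⟨s n, hsM n⟩, rfl, h1⟩
      rw [ZFSet.pair_mem_prod]
      exact ⟨natZ_mem_omZ n, (hb' ⟨s n, hsM n⟩).2 ⟨nz hM n, natZ_mem_omZ n, h1⟩⟩
    · rintro ⟨h1, _, x, y, rfl, h2⟩
      rw [ZFSet.pair_mem_prod] at h1
      obtain ⟨n, hn⟩ := mem_omZ.1 h1.1
      have hx' : x = nz hM n := Subtype.ext hn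
      subst hx'
      exact ⟨n, by rw [(hs n y).1 h2]; rfl⟩
  rw [this]; exact hr

theorem Ctb.mono {X Y : ZFSet.{u}} (h : Ctb M X) (hXY : Y ⊆ X) : Ctb M Y := by
  obtain ⟨f, hf, hf'⟩ := h
  exact ⟨f, hf, fun x hx => hf' x (hXY hx)⟩

/-- Images under definable functions. -/
theorem Ctb.image (hM : CTM M) {X Y : ZFSet.{u}} (h : Ctb M X) (hX : X ∈ M) {F : M → M → Prop}
    (hF : hM.Dfn (fun v : Fin 2 → M => F (v 0) (v 1)))
    (huni : ∀ x : M, x.1 ∈ X → ∀ y y', F x y → F x y' → y = y')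
    (hY : ∀ y ∈ Y, ∃ x y' : M, x.1 ∈ X ∧ y'.1 = y ∧ F x y') : Ctb M Y := by
  obtain ⟨f, hf, hf'⟩ := h
  by_cases hne : ∃ y0, y0 ∈ Y
  swap
  · push Not at hne
    exact ⟨f, hf, fun x hx => (hne x hx).elim⟩
  obtain ⟨y0, hy0⟩ := hne
  obtain ⟨x1, y1, hx1, hy1, hF1⟩ := hY y0 hy0
  classical
  let fm : ℕ → M := fun n => ⟨f n, hM.seqZ_val hf n⟩
  -- the new sequence
  have hex : ∀ n, ∃ y : M, ((f n ∈ X ∧ ∃ y', F (fm n) y') ∧ F (fm n) y) ∨
      (¬ (f n ∈ X ∧ ∃ y', F (fm n) y') ∧ y = y1) := by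
    intro n
    by_cases h1 : f n ∈ X ∧ ∃ y', F (fm n) y'
    · obtain ⟨h2, y, h3⟩ := h1
      exact ⟨y, Or.inl ⟨⟨h2, y, h3⟩, h3⟩⟩
    · exact ⟨y1, Or.inr ⟨h1, rfl⟩⟩
  choose g hg using hex
  refine ⟨fun n => (g n).1, ?_, ?_⟩
  · refine seqZ_mem_of_dfn hM (F := fun n y => ∃ x : M, ZFSet.pair n.1 x.1 ∈ (⟨_, hf⟩ : M).1 ∧
      (((x.1 ∈ (⟨X, hX⟩ : M).1 ∧ ∃ y', F x y') ∧ F x y) ∨
        (¬ (x.1 ∈ (⟨X, hX⟩ : M).1 ∧ ∃ y', F x y') ∧ y = y1))) ?_ ?_ (fun n => (g n).2)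
    · (repeat' first
          | exact DT.var _ | exact DT.last | exact DT.const _ | assumption
          | refine Dfn.pairMem ?_ ?_ ?_ | refine Dfn.isPair ?_ ?_ ?_ | refine Dfn.mem ?_ ?_
          | refine Dfn.eqv ?_ ?_ | refine Dfn.eq ?_ ?_ | refine Dfn.subset ?_ ?_
          | refine Dfn.isEmpty ?_ | refine Dfn.isTrans ?_ | refine Dfn.isOrd ?_
          | refine Dfn.isNat ?_ | refine Dfn.and ?_ ?_ | refine Dfn.or ?_ ?_
          | refine Dfn.iff ?_ ?_ | refine Dfn.not ?_ | refine Dfn.imp ?_ ?_ | refine Dfn.all ?_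
          | refine Dfn.ex ?_ | exact Dfn.false')
      all_goals exact Dfn.subst2 hF (DT.var _) (DT.var _)
    · intro n y
      constructor
      · rintro ⟨x, hx, h1⟩
        have hx' : x = fm n := Subtype.ext (pair_mem_seqZ.1 hx)
        subst hx'
        rcases h1 with ⟨h1, h2⟩ | ⟨h1, h2⟩
        · rcases hg n with ⟨_, h4⟩ | ⟨h3, _⟩
          · exact congrArg Subtype.val (huni _ h1.1 _ _ h2 h4)
          · exact (h3 h1).elim
        · rcases hg n with ⟨h3, _⟩ | ⟨_, h4⟩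
          · exact (h1 h3).elim
          · rw [h2, h4]
      · intro hy
        have hy' : y = g n := Subtype.ext hy
        subst hy'
        exact ⟨fm n, pair_mem_seqZ.2 rfl, hg n⟩
  · intro y hy
    obtain ⟨x, y', hx, hy', h1⟩ := hY y hy
    obtain ⟨n, hn⟩ := hf' x.1 hx
    have hx' : x = fm n := Subtype.ext hn.symm
    subst hx'
    refine ⟨n, ?_⟩
    rcases hg n with ⟨_, h4⟩ | ⟨h3, _⟩
    · rw [← hy']; exact congrArg Subtype.val (huni _ hx _ _ h4 h1)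
    · exact (h3 ⟨hx, y', h1⟩).elim

/-- `ω` is countable. -/
theorem ctb_om (hM : CTM M) : Ctb M omZ := by
  refine ⟨natZ, ?_, fun x hx => ?_⟩
  · refine seqZ_mem_of_dfn hM (F := fun x y => x = y) (by (repeat' first
      | exact DT.var _ | exact DT.last | exact DT.const _ | assumption
      | refine Dfn.pairMem ?_ ?_ ?_ | refine Dfn.isPair ?_ ?_ ?_ | refine Dfn.mem ?_ ?_
      | refine Dfn.eqv ?_ ?_ | refine Dfn.eq ?_ ?_ | refine Dfn.subset ?_ ?_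
      | refine Dfn.isEmpty ?_ | refine Dfn.isTrans ?_ | refine Dfn.isOrd ?_ | refine Dfn.isNat ?_
      | refine Dfn.and ?_ ?_ | refine Dfn.or ?_ ?_ | refine Dfn.iff ?_ ?_ | refine Dfn.not ?_
      | refine Dfn.imp ?_ ?_ | refine Dfn.all ?_ | refine Dfn.ex ?_ | exact Dfn.false')) ?_ hM.natZ_mem_N
    intro n y
    exact ⟨fun h => by rw [← h]; rfl, fun h => Subtype.ext h.symm⟩
  · obtain ⟨n, rfl⟩ := mem_omZ.1 hx
    exact ⟨n, rfl⟩

/-- An enumeration of `ω × ω` in the model. -/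
theorem exists_pairing (hM : CTM M) : ∃ g : ℕ → ℕ × ℕ, Function.Surjective g ∧
    seqZ (fun n => ZFSet.pair (natZ (g n).1) (natZ (g n).2)) ∈ M := by
  have hd : hM.Dfn (fun v : Fin 2 → M => ∃ i j i' j' : M, (v 0).1 = ZFSet.pair i.1 j.1 ∧
      (v 1).1 = ZFSet.pair i'.1 j'.1 ∧ ((j.1 = ∅ ∧ i'.1 = ∅ ∧ j'.1 = insert i.1 i.1) ∨
        (j.1 = insert j'.1 j'.1 ∧ i'.1 = insert i.1 i.1))) := by
    (repeat' first
        | exact DT.var _ | exact DT.last | exact DT.const _ | assumption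
        | refine Dfn.pairMem ?_ ?_ ?_ | refine Dfn.isPair ?_ ?_ ?_ | refine Dfn.mem ?_ ?_
        | refine Dfn.eqv ?_ ?_ | refine Dfn.eq ?_ ?_ | refine Dfn.subset ?_ ?_
        | refine Dfn.isEmpty ?_ | refine Dfn.isTrans ?_ | refine Dfn.isOrd ?_
        | refine Dfn.isNat ?_ | refine Dfn.and ?_ ?_ | refine Dfn.or ?_ ?_ | refine Dfn.iff ?_ ?_
        | refine Dfn.not ?_ | refine Dfn.imp ?_ ?_ | refine Dfn.all ?_ | refine Dfn.ex ?_
        | exact Dfn.false')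
    all_goals exact Dfn.isInsert (DT.var _) (DT.var _) (DT.var _)
  have hnat : ∀ n : ℕ, natZ.{u} (n + 1) = insert (natZ n) (natZ n) := fun n => rfl
  have hne : ∀ n : ℕ, insert (natZ.{u} n) (natZ n) ≠ ∅ := by
    intro n h
    have : natZ.{u} n ∈ insert (natZ n) (natZ n) := ZFSet.mem_insert _ _
    rw [h] at this
    exact ZFSet.notMem_empty _ this
  obtain ⟨g, g0, gD, gS, hg⟩ := hM.exists_omega_rec
    (S := fun x y => ∃ i j i' j' : M, x.1 = ZFSet.pair i.1 j.1 ∧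
      y.1 = ZFSet.pair i'.1 j'.1 ∧ ((j.1 = ∅ ∧ i'.1 = ∅ ∧ j'.1 = insert i.1 i.1) ∨
        (j.1 = insert j'.1 j'.1 ∧ i'.1 = insert i.1 i.1))) hd (D := ZFSet.prod omZ omZ)
    (hM.prod_mem hM.omZ_mem hM.omZ_mem) (by
      intro x hx
      rw [ZFSet.mem_prod] at hx
      obtain ⟨a, ha, b, hb, hx⟩ := hx
      obtain ⟨i, rfl⟩ := mem_omZ.1 ha
      obtain ⟨j, rfl⟩ := mem_omZ.1 hb
      cases j with
      | zero =>
        refine ⟨⟨ZFSet.pair (natZ 0) (natZ (i + 1)), hM.pair_mem (hM.natZ_mem_N _) (hM.natZ_mem_N _)⟩, ?_,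
          nz hM i, nz hM 0, nz hM 0, nz hM (i + 1), hx, rfl, Or.inl ⟨rfl, rfl, rfl⟩⟩
        rw [ZFSet.pair_mem_prod]; exact ⟨natZ_mem_omZ _, natZ_mem_omZ _⟩
      | succ j =>
        refine ⟨⟨ZFSet.pair (natZ (i + 1)) (natZ j), hM.pair_mem (hM.natZ_mem_N _) (hM.natZ_mem_N _)⟩, ?_,
          nz hM i, nz hM (j + 1), nz hM (i + 1), nz hM j, hx, rfl, Or.inr ⟨rfl, rfl⟩⟩
        rw [ZFSet.pair_mem_prod]; exact ⟨natZ_mem_omZ _, natZ_mem_omZ _⟩) (by
      intro x y y' hx hy hy' ⟨i, j, i', j', h1, h2, h3⟩ ⟨a, b, a', b', h1', h2', h3'⟩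
      apply Subtype.ext
      rw [h1, ZFSet.pair_inj] at h1'
      rw [h1, ZFSet.pair_mem_prod] at hx
      obtain ⟨n, hn⟩ := mem_omZ.1 hx.1
      obtain ⟨m, hm⟩ := mem_omZ.1 hx.2
      rw [h2, ZFSet.pair_mem_prod] at hy
      rw [h2', ZFSet.pair_mem_prod] at hy'
      obtain ⟨k, hk⟩ := mem_omZ.1 hy.2
      obtain ⟨k', hk'⟩ := mem_omZ.1 hy'.2
      rw [h2, h2', ZFSet.pair_inj]
      rcases h3 with ⟨h3, h4, h5⟩ | ⟨h3, h4⟩ <;> rcases h3' with ⟨h3', h4', h5'⟩ | ⟨h3', h4'⟩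
      · exact ⟨by rw [h4, h4'], by rw [h5, h5', h1'.1]⟩
      · exfalso
        rw [← h1'.2, h3, hk'] at h3'
        exact hne _ h3'.symm
      · exfalso
        rw [← h1'.2, h3, hk] at h3'
        exact hne _ h3'
      · refine ⟨by rw [h4, h4', h1'.1], ?_⟩
        rw [h3, h3', hk, hk', ← hnat, ← hnat, natZ_inj] at h1'
        rw [hk, hk']
        have : k = k' := by omega
        rw [this])
    ⟨ZFSet.pair (natZ 0) (natZ 0), hM.pair_mem (hM.natZ_mem_N _) (hM.natZ_mem_N _)⟩ (by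
      show ZFSet.pair (natZ 0) (natZ 0) ∈ _
      rw [ZFSet.pair_mem_prod]; exact ⟨natZ_mem_omZ _, natZ_mem_omZ _⟩)
  have hex : ∀ n, ∃ p : ℕ × ℕ, (g n).1 = ZFSet.pair (natZ p.1) (natZ p.2) := by
    intro n
    have h1 := gD n
    rw [ZFSet.mem_prod] at h1
    obtain ⟨a, ha, b, hb, hx⟩ := h1
    obtain ⟨i, rfl⟩ := mem_omZ.1 ha
    obtain ⟨j, rfl⟩ := mem_omZ.1 hb
    exact ⟨(i, j), hx⟩
  choose p hp using hex
  have hp0 : p 0 = (0, 0) := by
    have h1 := hp 0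
    rw [g0, ZFSet.pair_inj, natZ_inj, natZ_inj] at h1
    exact Prod.ext h1.1.symm h1.2.symm
  have hstep : ∀ n, ((p n).2 = 0 ∧ p (n + 1) = (0, (p n).1 + 1)) ∨
      (∃ j, (p n).2 = j + 1 ∧ p (n + 1) = ((p n).1 + 1, j)) := by
    intro n
    obtain ⟨i, j, i', j', h1, h2, h3⟩ := gS n
    rw [hp, ZFSet.pair_inj] at h1 h2
    rcases h3 with ⟨h3, h4, h5⟩ | ⟨h3, h4⟩
    · left
      rw [← h1.2] at h3
      rw [← h2.1] at h4
      rw [← h2.2, ← h1.1, ← hnat, natZ_inj] at h5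
      have h6 : natZ.{u} (p n).2 = natZ 0 := h3
      have h7 : natZ.{u} (p (n + 1)).1 = natZ 0 := h4
      rw [natZ_inj] at h6 h7
      exact ⟨h6, Prod.ext h7 h5⟩
    · right
      rw [← h1.2, ← h2.2, ← hnat, natZ_inj] at h3
      rw [← h2.1, ← h1.1, ← hnat, natZ_inj] at h4
      exact ⟨_, h3, Prod.ext h4 rfl⟩
  have hwalk : ∀ s, ∃ n, p n = (0, s) := by
    intro s
    induction s with
    | zero => exact ⟨0, hp0⟩
    | succ s ih =>
      obtain ⟨n, hn⟩ := ih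
      have h1 : ∀ i ≤ s, p (n + i) = (i, s - i) := by
        intro i
        induction i with
        | zero => intro _; simpa using hn
        | succ i ih2 =>
          intro hi
          have h2 := ih2 (by omega)
          rcases hstep (n + i) with ⟨h3, _⟩ | ⟨j, h3, h4⟩
          · exfalso; rw [h2] at h3; simp only at h3; omega
          · rw [h2] at h3 h4
            rw [← add_assoc, h4]
            simp only at h3
            simp only [Prod.mk.injEq, true_and]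
            omega
      have h5 := h1 s le_rfl
      rcases hstep (n + s) with ⟨_, h4⟩ | ⟨j, h3, _⟩
      · refine ⟨n + s + 1, ?_⟩
        rw [h4, h5]
      · exfalso; rw [h5] at h3; simp only at h3; omega
  refine ⟨p, ?_, ?_⟩
  · rintro ⟨a, b⟩
    obtain ⟨n, hn⟩ := hwalk (a + b)
    have h1 : ∀ i ≤ a, p (n + i) = (i, a + b - i) := by
      intro i
      induction i with
      | zero => intro _; simpa using hn
      | succ i ih2 =>
        intro hi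
        have h2 := ih2 (by omega)
        rcases hstep (n + i) with ⟨h3, _⟩ | ⟨j, h3, h4⟩
        · exfalso; rw [h2] at h3; simp only at h3; omega
        · rw [h2] at h3 h4
          rw [← add_assoc, h4]
          simp only at h3
          simp only [Prod.mk.injEq, true_and]
          omega
    refine ⟨n + a, ?_⟩
    rw [h1 a le_rfl]
    simp
  · have : (fun n => ZFSet.pair (natZ (p n).1) (natZ (p n).2)) = fun n => (g n).1 := by
      funext n; rw [hp n]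
    rw [this]; exact hg

/-- Countable unions of countable sets are countable. -/
theorem Ctb.iUnion (hM : CTM M) {X : ℕ → ZFSet.{u}} (hX : seqZ X ∈ M) (h : ∀ n, Ctb M (X n)) {U : ZFSet.{u}}
    (hU : ∀ x ∈ U, ∃ n, x ∈ X n) : Ctb M U := by
  obtain ⟨g, hg, hgM⟩ := exists_pairing hM
  have hA := hM.sUnion_mem (hM.sUnion_mem (hM.sUnion_mem hX))
  obtain ⟨P, hP, hP'⟩ := hM.exists_pow (hM.prod_mem hM.omZ_mem hA)
  obtain ⟨PP, hPP, hPP'⟩ := hM.exists_pow hP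
  obtain ⟨c, hc, hc'⟩ := hM.exists_choice hPP
  -- enumerations
  let Enm : M → M → Prop := fun e x => (∀ k y y' : M, ZFSet.pair k.1 y.1 ∈ e.1 → ZFSet.pair k.1 y'.1 ∈ e.1 →
    y = y') ∧ ∀ y : M, y.1 ∈ x.1 → ∃ k : M, k.1 ∈ (⟨omZ, hM.omZ_mem⟩ : M).1 ∧ ZFSet.pair k.1 y.1 ∈ e.1
  have hEnm : hM.Dfn (fun v : Fin 2 → M => Enm (v 0) (v 1)) := by (repeat' first
      | exact DT.var _ | exact DT.last | exact DT.const _ | assumption
      | refine Dfn.pairMem ?_ ?_ ?_ | refine Dfn.isPair ?_ ?_ ?_ | refine Dfn.mem ?_ ?_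
      | refine Dfn.eqv ?_ ?_ | refine Dfn.eq ?_ ?_ | refine Dfn.subset ?_ ?_
      | refine Dfn.isEmpty ?_ | refine Dfn.isTrans ?_ | refine Dfn.isOrd ?_ | refine Dfn.isNat ?_
      | refine Dfn.and ?_ ?_ | refine Dfn.or ?_ ?_ | refine Dfn.iff ?_ ?_ | refine Dfn.not ?_
      | refine Dfn.imp ?_ ?_ | refine Dfn.all ?_ | refine Dfn.ex ?_ | exact Dfn.false')
  have hXM : ∀ n, X n ∈ M := fun n => hM.seqZ_val hX n
  have hB : ∀ n, ∃ b : M, (∀ e : M, e.1 ∈ b.1 ↔ e.1 ∈ P ∧ Enm e ⟨X n, hXM n⟩) ∧ b.1 ∈ PP ∧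
      ∃ e : M, e.1 ∈ b.1 := by
    intro n
    obtain ⟨b, hb, hb'⟩ := hM.exists_sep (P := fun e => Enm e ⟨X n, hXM n⟩)
      (Dfn.subst2 hEnm (DT.var _) (DT.const _)) hP
    obtain ⟨f, hf, hf'⟩ := h n
    obtain ⟨e, he, he'⟩ := hM.exists_sep (P := fun z : M => z.1 ∈ (⟨_, hf⟩ : M).1) (by (repeat' first
        | exact DT.var _ | exact DT.last | exact DT.const _ | assumption
        | refine Dfn.pairMem ?_ ?_ ?_ | refine Dfn.isPair ?_ ?_ ?_ | refine Dfn.mem ?_ ?_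
        | refine Dfn.eqv ?_ ?_ | refine Dfn.eq ?_ ?_ | refine Dfn.subset ?_ ?_
        | refine Dfn.isEmpty ?_ | refine Dfn.isTrans ?_ | refine Dfn.isOrd ?_
        | refine Dfn.isNat ?_ | refine Dfn.and ?_ ?_ | refine Dfn.or ?_ ?_ | refine Dfn.iff ?_ ?_
        | refine Dfn.not ?_ | refine Dfn.imp ?_ ?_ | refine Dfn.all ?_ | refine Dfn.ex ?_
        | exact Dfn.false'))
      (hM.prod_mem hM.omZ_mem hA)
    have hmem : e ∈ P := (hP' e).2 ⟨he, fun z hz => ((he' z).1 hz).1⟩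
    have hen : Enm ⟨e, he⟩ ⟨X n, hXM n⟩ := by
      refine ⟨?_, ?_⟩
      · intro k y y' h1 h2
        obtain ⟨h3, _, h4⟩ := (he' _).1 h1
        obtain ⟨_, _, h5⟩ := (he' _).1 h2
        rw [ZFSet.pair_mem_prod] at h3
        obtain ⟨m, hm⟩ := mem_omZ.1 h3.1
        have h4 : ZFSet.pair k.1 y.1 ∈ seqZ f := h4
        have h5 : ZFSet.pair k.1 y'.1 ∈ seqZ f := h5
        rw [hm, pair_mem_seqZ] at h4 h5
        exact Subtype.ext (h4.trans h5.symm)
      · intro y hy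
        obtain ⟨k, hk⟩ := hf' y.1 hy
        refine ⟨nz hM k, natZ_mem_omZ k, (he' _).2 ⟨?_, hM.pair_mem (nz hM k).2 y.2, ?_⟩⟩
        · rw [ZFSet.pair_mem_prod]
          refine ⟨natZ_mem_omZ k, ?_⟩
          rw [ZFSet.mem_sUnion]
          refine ⟨X n, ?_, hy⟩
          exact (mem_sUnion_sUnion_pair (pair_mem_seqZ.2 rfl : ZFSet.pair (natZ n) (X n) ∈ seqZ X)).2
        · show ZFSet.pair (natZ k) y.1 ∈ seqZ f
          rw [pair_mem_seqZ, hk]
    refine ⟨⟨b, hb⟩, fun e' => ?_, ?_, ⟨e, he⟩, (hb' e).2 ⟨hmem, he, hen⟩⟩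
    · rw [hb']
      exact ⟨fun ⟨h1, _, h2⟩ => ⟨h1, h2⟩, fun ⟨h1, h2⟩ => ⟨h1, e'.2, h2⟩⟩
    · exact (hPP' b).2 ⟨hb, fun z hz => ((hb' z).1 hz).1⟩
  refine Ctb.image hM (ctb_om hM) hM.omZ_mem (F := fun m y => ∃ q n k e b x : M,
    ZFSet.pair m.1 q.1 ∈ (⟨_, hgM⟩ : M).1 ∧ q.1 = ZFSet.pair n.1 k.1 ∧ ZFSet.pair n.1 x.1 ∈ (⟨_, hX⟩ : M).1 ∧
    (∀ e' : M, e'.1 ∈ b.1 ↔ e'.1 ∈ (⟨P, hP⟩ : M).1 ∧ Enm e' x) ∧ b.1 ∈ (⟨PP, hPP⟩ : M).1 ∧ e.1 ∈ b.1 ∧
    ZFSet.pair b.1 e.1 ∈ (⟨c, hc⟩ : M).1 ∧ ZFSet.pair k.1 y.1 ∈ e.1) ?_ ?_ ?_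
  · (repeat' first
        | exact DT.var _ | exact DT.last | exact DT.const _ | assumption
        | refine Dfn.pairMem ?_ ?_ ?_ | refine Dfn.isPair ?_ ?_ ?_ | refine Dfn.mem ?_ ?_
        | refine Dfn.eqv ?_ ?_ | refine Dfn.eq ?_ ?_ | refine Dfn.subset ?_ ?_
        | refine Dfn.isEmpty ?_ | refine Dfn.isTrans ?_ | refine Dfn.isOrd ?_
        | refine Dfn.isNat ?_ | refine Dfn.and ?_ ?_ | refine Dfn.or ?_ ?_ | refine Dfn.iff ?_ ?_
        | refine Dfn.not ?_ | refine Dfn.imp ?_ ?_ | refine Dfn.all ?_ | refine Dfn.ex ?_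
        | exact Dfn.false')
  · rintro m hm y y' ⟨q, n, k, e, b, x, h1, h2, h3, h4, h5, h6, h7, h8⟩
      ⟨q', n', k', e', b', x', h1', h2', h3', h4', h5', h6', h7', h8'⟩
    obtain ⟨m', hm'⟩ := mem_omZ.1 hm
    have h1 : ZFSet.pair m.1 q.1 ∈ seqZ _ := h1
    have h1' : ZFSet.pair m.1 q'.1 ∈ seqZ _ := h1'
    rw [hm', pair_mem_seqZ] at h1 h1'
    rw [h2, ZFSet.pair_inj] at h1
    rw [h2', ZFSet.pair_inj] at h1'
    have en : n = n' := Subtype.ext (h1.1.trans h1'.1.symm)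
    have ek : k = k' := Subtype.ext (h1.2.trans h1'.2.symm)
    subst en ek
    have h3 : ZFSet.pair n.1 x.1 ∈ seqZ X := h3
    have h3' : ZFSet.pair n.1 x'.1 ∈ seqZ X := h3'
    rw [h1.1, pair_mem_seqZ] at h3 h3'
    have ex : x = x' := Subtype.ext (h3.trans h3'.symm)
    subst ex
    have eb : b = b' := Subtype.ext (hM.ext' b.2 b'.2 fun z => (h4 z).trans (h4' z).symm)
    subst eb
    obtain ⟨y0, hy0, hy1, hy2⟩ := hc' b.1 h5 (by rintro h0; rw [h0] at h6; exact ZFSet.notMem_empty _ h6)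
    have ee : e = e' := Subtype.ext ((hy2 _ h6 h7).trans (hy2 _ h6' h7').symm)
    subst ee
    exact ((h4 e).1 h6).2.1 k y y' h8 h8'
  · intro y hy
    obtain ⟨n, hn⟩ := hU y hy
    obtain ⟨b, hb, hbPP, e0, he0⟩ := hB n
    obtain ⟨e, he, he1, _⟩ := hc' b.1 hbPP (by rintro h0; rw [h0] at he0; exact ZFSet.notMem_empty _ he0)
    have heM := hM.mem_of_mem b.2 he
    have hyM := hM.mem_of_mem (hXM n) hn
    obtain ⟨k, hk, hk'⟩ := ((hb ⟨e, heM⟩).1 he).2.2 ⟨y, hyM⟩ hn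
    obtain ⟨k', hk2⟩ := mem_omZ.1 hk
    obtain ⟨m, hm⟩ := hg (n, k')
    refine ⟨nz hM m, ⟨y, hyM⟩, natZ_mem_omZ m, rfl, ⟨ZFSet.pair (natZ n) (natZ k'), ?_⟩, nz hM n, nz hM k',
      ⟨e, heM⟩, b, ⟨X n, hXM n⟩, ?_, rfl, pair_mem_seqZ.2 rfl, hb, hbPP, he, he1, ?_⟩
    · exact hM.pair_mem (hM.natZ_mem_N _) (hM.natZ_mem_N _)
    · show ZFSet.pair (natZ m) (ZFSet.pair (natZ n) (natZ k')) ∈ seqZ _
      rw [pair_mem_seqZ, hm]
    · have : k = nz hM k' := Subtype.ext hk2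
      rw [← this]; exact hk'

/-- `δ` is the first uncountable ordinal of `M`. -/
structure IsOm1 (M : Set ZFSet.{u}) (δ : Ordinal.{u}) : Prop where
  mem : δ.toZFSet ∈ M
  unc : ¬ Ctb M δ.toZFSet
  ctb : ∀ α < δ, Ctb M α.toZFSet

theorem exists_om1 (hM : CTM M) : ∃ δ, IsOm1 M δ := by
  classical
  suffices h : ∃ δ : Ordinal.{u}, δ.toZFSet ∈ M ∧ ¬ Ctb M δ.toZFSet by
    refine ⟨sInf {δ : Ordinal.{u} | δ.toZFSet ∈ M ∧ ¬ Ctb M δ.toZFSet}, ?_, ?_, ?_⟩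
    · exact (csInf_mem (s := {δ : Ordinal.{u} | δ.toZFSet ∈ M ∧ ¬ Ctb M δ.toZFSet}) h).1
    · exact (csInf_mem (s := {δ : Ordinal.{u} | δ.toZFSet ∈ M ∧ ¬ Ctb M δ.toZFSet}) h).2
    · intro α hα
      by_contra h1
      refine notMem_of_lt_csInf hα (OrderBot.bddBelow _) ⟨?_, h1⟩
      exact hM.toZFSet_mem_of_le hα.le
        (csInf_mem (s := {δ : Ordinal.{u} | δ.toZFSet ∈ M ∧ ¬ Ctb M δ.toZFSet}) h).1
  by_contra hcon
  push Not at hcon
  obtain ⟨P, hP, hP'⟩ := hM.exists_pow (hM.prod_mem hM.omZ_mem hM.omZ_mem)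
  let ω' : M := ⟨omZ, hM.omZ_mem⟩
  let F : M → M → Prop := fun r α => α.1.IsOrdinal ∧ ∃ f : M,
    (∀ n : M, n.1 ∈ ω'.1 → ∃ y : M, y.1 ∈ α.1 ∧ ZFSet.pair n.1 y.1 ∈ f.1) ∧
    (∀ n y y' : M, ZFSet.pair n.1 y.1 ∈ f.1 → ZFSet.pair n.1 y'.1 ∈ f.1 → y = y') ∧
    (∀ y : M, y.1 ∈ α.1 → ∃ n : M, n.1 ∈ ω'.1 ∧ ZFSet.pair n.1 y.1 ∈ f.1) ∧
    ∀ m : M, m.1 ∈ ω'.1 → ∀ n : M, n.1 ∈ ω'.1 → ∀ y z : M, ZFSet.pair m.1 y.1 ∈ f.1 →
      ZFSet.pair n.1 z.1 ∈ f.1 → (ZFSet.pair m.1 n.1 ∈ r.1 ↔ y.1 ∈ z.1)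
  have hF : hM.Dfn (fun v : Fin 2 → M => F (v 0) (v 1)) := by (repeat' first
      | exact DT.var _ | exact DT.last | exact DT.const _ | assumption
      | refine Dfn.pairMem ?_ ?_ ?_ | refine Dfn.isPair ?_ ?_ ?_ | refine Dfn.mem ?_ ?_
      | refine Dfn.eqv ?_ ?_ | refine Dfn.eq ?_ ?_ | refine Dfn.subset ?_ ?_
      | refine Dfn.isEmpty ?_ | refine Dfn.isTrans ?_ | refine Dfn.isOrd ?_ | refine Dfn.isNat ?_
      | refine Dfn.and ?_ ?_ | refine Dfn.or ?_ ?_ | refine Dfn.iff ?_ ?_ | refine Dfn.not ?_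
      | refine Dfn.imp ?_ ?_ | refine Dfn.all ?_ | refine Dfn.ex ?_ | exact Dfn.false')
  have hu : ∀ r α α', F r α → F r α' → α.1 ⊆ α'.1 := by
    rintro r α α' ⟨ho, f, h1, h2, h3, h4⟩ ⟨ho', f', h1', h2', h3', h4'⟩
    have key : ∀ x : ZFSet.{u}, ∀ n : M, n.1 ∈ ω'.1 → ∀ y y' : M, y.1 = x → ZFSet.pair n.1 y.1 ∈ f.1 →
        ZFSet.pair n.1 y'.1 ∈ f'.1 → y = y' := by
      intro x
      induction x using ZFSet.inductionOn with
      | _ x ih =>
      intro n hn y y' hyx hy hy'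
      have hyα : y.1 ∈ α.1 := by
        obtain ⟨y2, h5, h6⟩ := h1 n hn
        rw [h2 n y y2 hy h6]; exact h5
      have hyα' : y'.1 ∈ α'.1 := by
        obtain ⟨y2, h5, h6⟩ := h1' n hn
        rw [h2' n y' y2 hy' h6]; exact h5
      apply Subtype.ext
      apply ZFSet.ext
      intro z
      constructor
      · intro hz
        have hzα : z ∈ α.1 := ho.mem_trans hz hyα
        have hzM := hM.mem_of_mem α.2 hzα
        obtain ⟨m, hm, hm'⟩ := h3 ⟨z, hzM⟩ hzα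
        obtain ⟨z2, h5, h6⟩ := h1' m hm
        have h7 := ih z (by rw [← hyx]; exact hz) m hm ⟨z, hzM⟩ z2 rfl hm' h6
        have h8 : ZFSet.pair m.1 n.1 ∈ r.1 := (h4 m hm n hn ⟨z, hzM⟩ y hm' hy).2 hz
        have h9 := (h4' m hm n hn z2 y' h6 hy').1 h8
        rw [← h7] at h9
        exact h9
      · intro hz
        have hzα : z ∈ α'.1 := ho'.mem_trans hz hyα'
        have hzM := hM.mem_of_mem α'.2 hzα
        obtain ⟨m, hm, hm'⟩ := h3' ⟨z, hzM⟩ hzα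
        obtain ⟨z2, h5, h6⟩ := h1 m hm
        have h8 : ZFSet.pair m.1 n.1 ∈ r.1 := (h4' m hm n hn ⟨z, hzM⟩ y' hm' hy').2 hz
        have h9 := (h4 m hm n hn z2 y h6 hy).1 h8
        have h7 := ih z2.1 (by rw [← hyx]; exact h9) m hm z2 ⟨z, hzM⟩ rfl h6 hm'
        rw [h7] at h9
        exact h9
    intro z hz
    have hzM := hM.mem_of_mem α.2 hz
    obtain ⟨n, hn, hn'⟩ := h3 ⟨z, hzM⟩ hz
    obtain ⟨y', h5, h6⟩ := h1' n hn
    have := key z n hn ⟨z, hzM⟩ y' rfl hn' h6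
    rw [← this] at h5
    exact h5
  obtain ⟨b, hb, hb'⟩ := hM.exists_repl hF hP (by
    intro r _ α α' h1 h2
    exact Subtype.ext (le_antisymm (hu r α α' h1 h2) (hu r α' α h2 h1)))
  have hall : ∀ α : Ordinal.{u}, α ≠ 0 → α.toZFSet ∈ M → α.toZFSet ∈ b := by
    intro α hα0 hα
    obtain ⟨f, hf, hf'⟩ := hcon α hα
    have h0 : (∅ : ZFSet.{u}) ∈ α.toZFSet := by
      have h1 : (0 : Ordinal.{u}).toZFSet ∈ α.toZFSet :=
        Ordinal.toZFSet_mem_toZFSet_iff.2 (pos_iff_ne_zero.2 hα0)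
      simpa using h1
    let s : ℕ → ZFSet.{u} := fun n => if f n ∈ α.toZFSet then f n else ∅
    have hs : ∀ n, s n ∈ α.toZFSet := by
      intro n
      by_cases h1 : f n ∈ α.toZFSet
      · simp only [s, if_pos h1]; exact h1
      · simp only [s, if_neg h1]; exact h0
    have hsM : seqZ s ∈ M := by
      refine seqZ_mem_of_dfn hM (F := fun n y => ∃ x : M, ZFSet.pair n.1 x.1 ∈ (⟨_, hf⟩ : M).1 ∧
        ((x.1 ∈ (⟨_, hα⟩ : M).1 ∧ y = x) ∨ (¬ x.1 ∈ (⟨_, hα⟩ : M).1 ∧ y.1 = ∅))) (by (repeat' first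
            | exact DT.var _ | exact DT.last | exact DT.const _ | assumption
            | refine Dfn.pairMem ?_ ?_ ?_ | refine Dfn.isPair ?_ ?_ ?_ | refine Dfn.mem ?_ ?_
            | refine Dfn.eqv ?_ ?_ | refine Dfn.eq ?_ ?_ | refine Dfn.subset ?_ ?_
            | refine Dfn.isEmpty ?_ | refine Dfn.isTrans ?_ | refine Dfn.isOrd ?_
            | refine Dfn.isNat ?_ | refine Dfn.and ?_ ?_ | refine Dfn.or ?_ ?_
            | refine Dfn.iff ?_ ?_ | refine Dfn.not ?_ | refine Dfn.imp ?_ ?_ | refine Dfn.all ?_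
            | refine Dfn.ex ?_ | exact Dfn.false')) ?_
        (fun n => hM.mem_of_mem hα (hs n))
      intro n y
      constructor
      · rintro ⟨x, h1, h2⟩
        have h1 : x.1 = f n := pair_mem_seqZ.1 h1
        rcases h2 with ⟨h2, rfl⟩ | ⟨h2, h3⟩
        · have h2 : y.1 ∈ α.toZFSet := h2
          rw [h1] at h2
          simp only [s, if_pos h2]; exact h1
        · have h2 : ¬ x.1 ∈ α.toZFSet := h2
          rw [h1] at h2
          simp only [s, if_neg h2]; exact h3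
      · intro hy
        refine ⟨⟨f n, hM.seqZ_val hf n⟩, pair_mem_seqZ.2 rfl, ?_⟩
        by_cases h1 : f n ∈ α.toZFSet
        · left
          refine ⟨h1, Subtype.ext ?_⟩
          rw [hy]; simp only [s, if_pos h1]
        · right
          refine ⟨h1, ?_⟩
          rw [hy]; simp only [s, if_neg h1]
    have hsurj : ∀ y ∈ α.toZFSet, ∃ n, s n = y := by
      intro y hy
      obtain ⟨n, hn⟩ := hf' y hy
      refine ⟨n, ?_⟩
      have h1 : f n ∈ α.toZFSet := by rw [hn]; exact hy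
      simp only [s, if_pos h1]; exact hn
    obtain ⟨r, hr, hr'⟩ := hM.exists_sep (P := fun z => ∃ m n y x : M, z.1 = ZFSet.pair m.1 n.1 ∧
      ZFSet.pair m.1 y.1 ∈ (⟨_, hsM⟩ : M).1 ∧ ZFSet.pair n.1 x.1 ∈ (⟨_, hsM⟩ : M).1 ∧ y.1 ∈ x.1) (by (repeat' first
          | exact DT.var _ | exact DT.last | exact DT.const _ | assumption
          | refine Dfn.pairMem ?_ ?_ ?_ | refine Dfn.isPair ?_ ?_ ?_ | refine Dfn.mem ?_ ?_
          | refine Dfn.eqv ?_ ?_ | refine Dfn.eq ?_ ?_ | refine Dfn.subset ?_ ?_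
          | refine Dfn.isEmpty ?_ | refine Dfn.isTrans ?_ | refine Dfn.isOrd ?_
          | refine Dfn.isNat ?_ | refine Dfn.and ?_ ?_ | refine Dfn.or ?_ ?_
          | refine Dfn.iff ?_ ?_ | refine Dfn.not ?_ | refine Dfn.imp ?_ ?_ | refine Dfn.all ?_
          | refine Dfn.ex ?_ | exact Dfn.false'))
      (hM.prod_mem hM.omZ_mem hM.omZ_mem)
    refine (hb' ⟨_, hα⟩).2 ⟨⟨r, hr⟩, (hP' r).2 ⟨hr, fun z hz => ((hr' z).1 hz).1⟩,
      ZFSet.isOrdinal_toZFSet _, ⟨_, hsM⟩, ?_, ?_, ?_, ?_⟩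
    · intro n hn
      obtain ⟨k, hk⟩ := mem_omZ.1 hn
      refine ⟨⟨s k, hM.seqZ_val hsM k⟩, hs k, ?_⟩
      rw [hk]; exact pair_mem_seqZ.2 rfl
    · intro n y y' h1 h2
      obtain ⟨k, hk⟩ := mem_seqZ.1 h1
      rw [ZFSet.pair_inj] at hk
      rw [hk.1] at h1 h2
      exact Subtype.ext ((pair_mem_seqZ.1 h1).trans (pair_mem_seqZ.1 h2).symm)
    · intro y hy
      obtain ⟨n, hn⟩ := hsurj y.1 hy
      exact ⟨nz hM n, natZ_mem_omZ n, pair_mem_seqZ.2 hn.symm⟩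
    · intro m hm n hn y z hy hz
      constructor
      · intro h1
        obtain ⟨_, _, m', n', y', x', h2, h3, h4, h5⟩ := (hr' _).1 h1
        have h2 : ZFSet.pair m.1 n.1 = ZFSet.pair m'.1 n'.1 := h2
        rw [ZFSet.pair_inj] at h2
        rw [← h2.1] at h3
        rw [← h2.2] at h4
        obtain ⟨k, hk⟩ := mem_omZ.1 hm
        obtain ⟨l, hl⟩ := mem_omZ.1 hn
        rw [hk] at h3 hy
        rw [hl] at h4 hz
        rw [pair_mem_seqZ.1 hy, pair_mem_seqZ.1 hz, ← pair_mem_seqZ.1 h3, ← pair_mem_seqZ.1 h4]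
        exact h5
      · intro h1
        refine (hr' _).2 ⟨?_, hM.pair_mem m.2 n.2, m, n, y, z, rfl, hy, hz, h1⟩
        rw [ZFSet.pair_mem_prod]; exact ⟨hm, hn⟩
  -- contradiction
  have h1 := hM.rank_mem hb
  have h2 : (b.rank + 1).toZFSet ∈ M := by
    rw [Ordinal.toZFSet_add_one]
    exact hM.insert_mem h1 h1
  have h3 := hall _ (by simp) h2
  have h4 := ZFSet.rank_lt_of_mem h3
  rw [Ordinal.rank_toZFSet] at h4
  exact absurd (Order.lt_add_one_iff.2 le_rfl : b.rank < b.rank + 1) (not_lt.2 h4.le)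

theorem toZFSet_inj {α β : Ordinal.{u}} : α.toZFSet = β.toZFSet ↔ α = β :=
  ⟨fun h => Ordinal.toZFSet_injective h, fun h => by rw [h]⟩

/-- Definable functions from a countable set into `ω₁` are bounded. -/
theorem IsOm1.bdd (hM : CTM M) {δ : Ordinal.{u}} (hδ : IsOm1 M δ) {X : ZFSet.{u}} (hX : X ∈ M) (hXc : Ctb M X)
    {F : M → M → Prop} (hF : hM.Dfn (fun v : Fin 2 → M => F (v 0) (v 1)))
    (huni : ∀ x : M, x.1 ∈ X → ∀ y y', F x y → F x y' → y = y') :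
    ∃ α < δ, ∀ x : M, x.1 ∈ X → ∀ y : M, F x y → ∀ β < δ, y.1 = β.toZFSet → β ≤ α := by
  classical
  by_contra hcon
  push Not at hcon
  obtain ⟨Y, hY, hY'⟩ := hM.exists_repl (F := fun x y => F x y ∧ y.1 ∈ (⟨_, hδ.mem⟩ : M).1)
    (hF.and (by (repeat' first
        | exact DT.var _ | exact DT.last | exact DT.const _ | assumption
        | refine Dfn.pairMem ?_ ?_ ?_ | refine Dfn.isPair ?_ ?_ ?_ | refine Dfn.mem ?_ ?_
        | refine Dfn.eqv ?_ ?_ | refine Dfn.eq ?_ ?_ | refine Dfn.subset ?_ ?_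
        | refine Dfn.isEmpty ?_ | refine Dfn.isTrans ?_ | refine Dfn.isOrd ?_
        | refine Dfn.isNat ?_ | refine Dfn.and ?_ ?_ | refine Dfn.or ?_ ?_ | refine Dfn.iff ?_ ?_
        | refine Dfn.not ?_ | refine Dfn.imp ?_ ?_ | refine Dfn.all ?_ | refine Dfn.ex ?_
        | exact Dfn.false'))) hX (fun x hx y y' h1 h2 => huni x hx y y' h1.1 h2.1)
  have hYc : Ctb M Y := Ctb.image hM hXc hX hF huni (by
    intro y hy
    obtain ⟨x, hx, h1⟩ := (hY' ⟨y, hM.mem_of_mem hY hy⟩).1 hy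
    exact ⟨x, _, hx, rfl, h1.1⟩)
  obtain ⟨f, hf, hf'⟩ := hYc
  let X' : ℕ → ZFSet.{u} := fun n => if f n ∈ δ.toZFSet then f n else ∅
  have hX'M : ∀ n, X' n ∈ M := by
    intro n
    by_cases h1 : f n ∈ δ.toZFSet
    · simp only [X', if_pos h1]; exact hM.mem_of_mem hδ.mem h1
    · simp only [X', if_neg h1]; exact hM.empty_mem
  have hX' : seqZ X' ∈ M := by
    refine seqZ_mem_of_dfn hM (F := fun n y => ∃ x : M, ZFSet.pair n.1 x.1 ∈ (⟨_, hf⟩ : M).1 ∧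
        ((x.1 ∈ (⟨_, hδ.mem⟩ : M).1 ∧ y = x) ∨ (¬ x.1 ∈ (⟨_, hδ.mem⟩ : M).1 ∧ y.1 = ∅))) (by (repeat' first
            | exact DT.var _ | exact DT.last | exact DT.const _ | assumption
            | refine Dfn.pairMem ?_ ?_ ?_ | refine Dfn.isPair ?_ ?_ ?_ | refine Dfn.mem ?_ ?_
            | refine Dfn.eqv ?_ ?_ | refine Dfn.eq ?_ ?_ | refine Dfn.subset ?_ ?_
            | refine Dfn.isEmpty ?_ | refine Dfn.isTrans ?_ | refine Dfn.isOrd ?_
            | refine Dfn.isNat ?_ | refine Dfn.and ?_ ?_ | refine Dfn.or ?_ ?_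
            | refine Dfn.iff ?_ ?_ | refine Dfn.not ?_ | refine Dfn.imp ?_ ?_ | refine Dfn.all ?_
            | refine Dfn.ex ?_ | exact Dfn.false')) ?_ hX'M
    intro n y
    constructor
    · rintro ⟨x, h1, h2⟩
      have h1 : x.1 = f n := pair_mem_seqZ.1 h1
      rcases h2 with ⟨h2, rfl⟩ | ⟨h2, h3⟩
      · have h2 : y.1 ∈ δ.toZFSet := h2
        rw [h1] at h2
        simp only [X', if_pos h2]; exact h1
      · have h2 : ¬ x.1 ∈ δ.toZFSet := h2
        rw [h1] at h2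
        simp only [X', if_neg h2]; exact h3
    · intro hy
      refine ⟨⟨f n, hM.seqZ_val hf n⟩, pair_mem_seqZ.2 rfl, ?_⟩
      by_cases h1 : f n ∈ δ.toZFSet
      · left
        refine ⟨h1, Subtype.ext ?_⟩
        rw [hy]; simp only [X', if_pos h1]
      · right
        refine ⟨h1, ?_⟩
        rw [hy]; simp only [X', if_neg h1]
  refine hδ.unc (Ctb.iUnion hM hX' ?_ ?_)
  · intro n
    by_cases h1 : f n ∈ δ.toZFSet
    · simp only [X', if_pos h1]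
      obtain ⟨β, hβ, h2⟩ := Ordinal.mem_toZFSet_iff.1 h1
      rw [← h2]; exact hδ.ctb β hβ
    · simp only [X', if_neg h1]
      exact (ctb_om hM).mono (fun x hx => (ZFSet.notMem_empty _ hx).elim)
  · intro x hx
    obtain ⟨β, hβ, rfl⟩ := Ordinal.mem_toZFSet_iff.1 hx
    obtain ⟨x, hx, y, hxy, γ, hγ, hyγ, hβγ⟩ := hcon β hβ
    have hyY : y.1 ∈ Y := (hY' y).2 ⟨x, hx, hxy, by rw [hyγ]; exact Ordinal.toZFSet_mem_toZFSet_iff.2 hγ⟩
    obtain ⟨n, hn⟩ := hf' y.1 hyY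
    refine ⟨n, ?_⟩
    have h1 : f n ∈ δ.toZFSet := by rw [hn, hyγ]; exact Ordinal.toZFSet_mem_toZFSet_iff.2 hγ
    simp only [X', if_pos h1]
    rw [hn, hyγ]; exact Ordinal.toZFSet_mem_toZFSet_iff.2 hβγ

theorem IsOm1.omega_lt (hM : CTM M) {δ : Ordinal.{u}} (hδ : IsOm1 M δ) (n : ℕ) : (n : Ordinal.{u}) < δ := by
  by_contra h
  push Not at h
  refine hδ.unc ((ctb_om hM).mono ?_)
  intro x hx
  obtain ⟨β, hβ, rfl⟩ := Ordinal.mem_toZFSet_iff.1 hx
  obtain ⟨m, rfl⟩ := Ordinal.lt_omega0.1 ((hβ.trans_le h).trans (Ordinal.natCast_lt_omega0 n))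
  rw [← natZ_eq]; exact natZ_mem_omZ m

/-- `ω₁` is a limit ordinal. -/
theorem IsOm1.succ_lt (hM : CTM M) {δ : Ordinal.{u}} (hδ : IsOm1 M δ) {α : Ordinal.{u}} (h : α < δ) :
    α + 1 < δ := by
  rcases lt_or_eq_of_le (Order.add_one_le_of_lt h) with h1 | h1
  · exact h1
  · exfalso
    have hα := hM.toZFSet_mem_of_le h.le hδ.mem
    obtain ⟨f, hf, hf'⟩ := hδ.ctb α h
    have h2 : seqZ (fun n => match n with
        | 0 => α.toZFSet
        | n + 1 => f n) ∈ M := by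
      refine seqZ_mem_of_dfn hM (F := fun n y => (n.1 = ∅ ∧ y = ⟨_, hα⟩) ∨
        ∃ m : M, n.1 = insert m.1 m.1 ∧ ZFSet.pair m.1 y.1 ∈ (⟨_, hf⟩ : M).1) ?_ ?_ ?_
      · (repeat' first
            | exact DT.var _ | exact DT.last | exact DT.const _ | assumption
            | refine Dfn.pairMem ?_ ?_ ?_ | refine Dfn.isPair ?_ ?_ ?_ | refine Dfn.mem ?_ ?_
            | refine Dfn.eqv ?_ ?_ | refine Dfn.eq ?_ ?_ | refine Dfn.subset ?_ ?_
            | refine Dfn.isEmpty ?_ | refine Dfn.isTrans ?_ | refine Dfn.isOrd ?_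
            | refine Dfn.isNat ?_ | refine Dfn.and ?_ ?_ | refine Dfn.or ?_ ?_
            | refine Dfn.iff ?_ ?_ | refine Dfn.not ?_ | refine Dfn.imp ?_ ?_ | refine Dfn.all ?_
            | refine Dfn.ex ?_ | exact Dfn.false')
        exact Dfn.isInsert (DT.var _) (DT.var _) (DT.var _)
      · intro n y
        cases n with
        | zero =>
          constructor
          · rintro (⟨_, rfl⟩ | ⟨m, h3, _⟩)
            · rfl
            · exfalso
              have h4 : (∅ : ZFSet.{u}) = insert m.1 m.1 := h3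
              have h5 : m.1 ∈ (∅ : ZFSet.{u}) := by rw [h4]; exact ZFSet.mem_insert _ _
              exact ZFSet.notMem_empty _ h5
          · intro h3
            exact Or.inl ⟨rfl, Subtype.ext h3⟩
        | succ n =>
          constructor
          · rintro (⟨h3, _⟩ | ⟨m, h3, h4⟩)
            · exfalso
              have h4 : natZ.{u} (n + 1) = ∅ := h3
              have h5 : natZ.{u} n ∈ natZ.{u} (n + 1) := natZ_mem.2 (Nat.lt_succ_self n)
              rw [h4] at h5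
              exact ZFSet.notMem_empty _ h5
            · have h5 : m.1 = natZ n := by
                have h6 : natZ.{u} (n + 1) = insert m.1 m.1 := h3
                have h7 : m.1 ∈ natZ.{u} (n + 1) := by rw [h6]; exact ZFSet.mem_insert _ _
                obtain ⟨k, hk, hk'⟩ := mem_natZ.1 h7
                have h8 : natZ n ∈ natZ.{u} (n + 1) := natZ_mem.2 (Nat.lt_succ_self n)
                rw [h6, ZFSet.mem_insert_iff] at h8
                rcases h8 with h8 | h8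
                · exact h8.symm
                · exfalso
                  rw [hk', natZ_mem] at h8
                  omega
              rw [h5] at h4
              exact pair_mem_seqZ.1 h4
          · intro h3
            exact Or.inr ⟨nz hM n, rfl, pair_mem_seqZ.2 h3⟩
      · intro n
        cases n with
        | zero => exact hα
        | succ n => exact hM.seqZ_val hf n
    refine hδ.unc ⟨_, h2, ?_⟩
    intro x hx
    rw [← h1, Ordinal.toZFSet_add_one, ZFSet.mem_insert_iff] at hx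
    rcases hx with rfl | hx
    · exact ⟨0, rfl⟩
    · obtain ⟨n, hn⟩ := hf' x hx
      exact ⟨n + 1, hn⟩

end Pool.Agent.H52.GC
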